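import Pool.Agent.helper60.DA.SpecJ

/-! Row dj:OM (MP_fb2c2a_nt): the Teichmüller lift modulo `p^2`. -/

set_option autoImplicit false

namespace Pool.Agent.helper60.DA

open Polynomial Finset Pool.Agent.helper60.DK

theorem OM_aux1 (p : ℕ) [hp : Fact p.Prime] (z w : ZMod (p ^ 2)) (h : rd p z = rd p w) :
    z ^ p = w ^ p := by
  obtain ⟨x, hx⟩ : ∃ x : ZMod p, z - w = lp p x := by
    apply exists_lp_of_rd_eq_zero
    rw [map_sub, h, sub_self]
  have hz : z = w + lp p x := by rw [← hx]; ring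
  have h1 := ph_spec (p := p) w (lp p x)
  have h2 : lp p x ^ p = 0 := by
    obtain ⟨k, hk⟩ : ∃ k, p = k + 2 := ⟨p - 2, by have := hp.out.two_le; omega⟩
    have h3 : lp p x ^ 2 = 0 := (sq (lp p x)).trans (lp_mul_lp x x)
    calc lp p x ^ p = lp p x ^ (p - 2) * lp p x ^ 2 := by
          rw [← pow_add]; congr 1; omega
      _ = 0 := by rw [h3, mul_zero]
  have h4 : (p : ZMod (p ^ 2)) * ph p w (lp p x) = 0 := by
    rw [p_mul, map_ph, rd_lp]
    have h5 : ph p (rd p w) 0 = 0 := by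
      unfold ph
      apply Finset.sum_eq_zero
      intro j hj
      rw [Finset.mem_Ioo] at hj
      rw [zero_pow (by omega), mul_zero]
    rw [h5, lp_zero]
  rw [h4, h2] at h1
  rw [hz]
  linear_combination -h1

theorem OM_aux2 (p : ℕ) [hp : Fact p.Prime] (z : ZMod (p ^ 2)) : om p (rd p z) = z ^ p := by
  unfold om
  apply OM_aux1
  have : NeZero p := ⟨hp.out.ne_zero⟩
  rw [rd_natCast, ZMod.natCast_zmod_val]

theorem OM_aux3 (p : ℕ) [hp : Fact p.Prime] (t : ZMod p) : ∃ z : ZMod (p ^ 2), rd p z = t := by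
  have : NeZero p := ⟨hp.out.ne_zero⟩
  exact ⟨((t.val : ℕ) : ZMod (p ^ 2)), by rw [rd_natCast, ZMod.natCast_zmod_val]⟩

theorem OM : OM_stmt := by
  intro p hp _
  have hp0 : p ≠ 0 := hp.out.ne_zero
  have h6 : ∀ t : ZMod p, rd p (om p t) = t := by
    intro t
    obtain ⟨z, rfl⟩ := OM_aux3 p t
    rw [OM_aux2, map_pow, ZMod.pow_card]
  refine ⟨?_, ?_, ?_, ?_, ?_, h6, ?_⟩
  · intro s t
    obtain ⟨z, rfl⟩ := OM_aux3 p s
    obtain ⟨w, rfl⟩ := OM_aux3 p t
    rw [← map_mul, OM_aux2, OM_aux2, OM_aux2, mul_pow]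
  · rw [← map_one (rd p), OM_aux2, one_pow]
  · rw [← map_zero (rd p), OM_aux2, zero_pow hp0]
  · intro t ht
    obtain ⟨z, rfl⟩ := OM_aux3 p t
    rw [OM_aux2, ← pow_mul, mul_comm, pow_mul]
    have h1 : (z ^ (p - 1)) ^ p = (1 : ZMod (p ^ 2)) ^ p := by
      apply OM_aux1
      rw [map_pow, map_one]
      exact ZMod.pow_card_sub_one_eq_one ht
    rw [h1, one_pow]
  · intro z
    rw [← rd_intCast, OM_aux2]
  · intro t
    have h1 : rd p (1 - om p t) = 1 - t := by rw [map_sub, map_one, h6]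
    rw [← h1, OM_aux2]

end Pool.Agent.helper60.DA
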